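import Pool.Agent.Helper14.TT.StU
import Pool.Agent.Helper78.CV.M_Trc
import Pool.Agent.Helper61.CV.M_DimE

/-!
# Project TT, module DimES: the dimension of `antiES k σ τ`
-/

set_option autoImplicit false

namespace Pool.Agent.Helper66.TT

open Pool.Agent.Helper14.TT Pool.Agent.Helper14.CV
open Pool.Agent.Helper61.CV (H16 ub ub_xor cQ sg actH unc)
open Pool.Agent.Helper76.TX (antiES Sg)

/-- the sign of an element -/
private def wgS (s1 s2 : ℤˣ) : H16 →* ℤˣ where
  toFun p := ub p.a * ub p.b * (if p.s then s1 else 1) * (if p.n then s2 else 1)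
  map_one' := by
    rcases Int.units_eq_one_or s1 with rfl | rfl <;>
      rcases Int.units_eq_one_or s2 with rfl | rfl <;> decide
  map_mul' := by
    rcases Int.units_eq_one_or s1 with rfl | rfl <;>
      rcases Int.units_eq_one_or s2 with rfl | rfl <;> decide

open Finset in
/-- the signed number of fixed points -/
private theorem countS {N : ℕ} [NeZero N] {Q R : ZMod N} (hQ : Q + Q = 0) (hQ0 : Q ≠ 0)
    (hR : R + R = Q) (s1 s2 : ℤˣ) :
    letI := actH (N := N) hQ
    ∑ g : H16, ((wgS s1 s2 g : ℤ) : ℂ) *
        (Finset.univ.filter fun i : ZMod N × ZMod N => g • i = i).card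
      = (Fintype.card (ZMod N × ZMod N) : ℂ) +
        2 * (N : ℂ) * (((s1 : ℤ) : ℂ) * (1 + ((s2 : ℤ) : ℂ))) := by
  let _ := actH (N := N) hQ
  have hd : ∀ (p : H16) (z : ZMod N × ZMod N), p • z =
    (sg p.n (cond p.s z.2 z.1) + cQ Q p.a, sg p.n (cond p.s z.1 z.2) + cQ Q p.b) := fun p z => rfl
  set M : Bool → Bool → Bool → Bool → ℕ := fun a b s n =>
    (Finset.univ.filter fun i : ZMod N × ZMod N => (⟨a, b, s, n⟩ : H16) • i = i).card with hM
  have hQn : -Q = Q := neg_eq_of_add_eq_zero_left hQ
  have c1 : M false false false false = Fintype.card (ZMod N × ZMod N) := by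
    rw [hM]
    show (Finset.univ.filter fun i : ZMod N × ZMod N => (1 : H16) • i = i).card = _
    rw [Finset.filter_true_of_mem fun i _ => one_smul H16 i, Finset.card_univ]
  have c2 : ∀ b, M true b false false = 0 := by
    intro b
    rw [hM]
    refine Finset.card_eq_zero.2 (Finset.filter_eq_empty_iff.2 fun i _ h => ?_)
    rw [hd] at h
    have h1 := congrArg Prod.fst h
    simp [sg, cQ] at h1
    exact hQ0 h1
  have c3 : M false true false false = 0 := by
    rw [hM]
    refine Finset.card_eq_zero.2 (Finset.filter_eq_empty_iff.2 fun i _ h => ?_)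
    rw [hd] at h
    have h1 := congrArg Prod.snd h
    simp [sg, cQ] at h1
    exact hQ0 h1
  have c4 : ∀ b, M false b false true = M true b false true := by
    intro b
    rw [hM]
    refine Finset.card_bij (fun z _ => (z.1 + R, z.2)) ?_ ?_ ?_
    · intro z hz
      rw [Finset.mem_filter] at hz ⊢
      refine ⟨Finset.mem_univ _, ?_⟩
      have h := hz.2
      rw [hd] at h ⊢
      have h1 := congrArg Prod.fst h
      have h2 := congrArg Prod.snd h
      simp only [sg, cQ, cond_false, if_true, Bool.false_eq_true, if_false, add_zero] at h1 h2 ⊢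
      refine Prod.ext ?_ h2
      show -(z.1 + R) + Q = z.1 + R
      linear_combination h1 - hR
    · intro z _ z' _ h
      have h1 := congrArg Prod.fst h
      have h2 := congrArg Prod.snd h
      exact Prod.ext (add_right_cancel h1) h2
    · intro z hz
      refine ⟨(z.1 - R, z.2), ?_, by simp⟩
      rw [Finset.mem_filter] at hz ⊢
      refine ⟨Finset.mem_univ _, ?_⟩
      have h := hz.2
      rw [hd] at h ⊢
      have h1 := congrArg Prod.fst h
      have h2 := congrArg Prod.snd h
      simp only [sg, cQ, cond_false, if_true, Bool.false_eq_true, if_false, add_zero] at h1 h2 ⊢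
      refine Prod.ext ?_ h2
      show -(z.1 - R) = z.1 - R
      linear_combination h1 + hR
  have c5 : ∀ a b, M a b true true = M a b true false := by
    intro a b
    rw [hM]
    have hc : ∀ b, -(cQ Q b) = cQ Q b := fun b => by cases b <;> simp [cQ, hQn]
    symm
    refine Finset.card_bij (fun z _ => (z.1, -z.2)) ?_ ?_ ?_
    · intro z hz
      rw [Finset.mem_filter] at hz ⊢
      refine ⟨Finset.mem_univ _, ?_⟩
      have h := hz.2
      rw [hd] at h ⊢
      have h1 : z.2 + cQ Q a = z.1 := congrArg Prod.fst h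
      have h2 : z.1 + cQ Q b = z.2 := congrArg Prod.snd h
      refine Prod.ext ?_ ?_
      · show -(-z.2) + cQ Q a = z.1
        rw [neg_neg]; exact h1
      · show -z.1 + cQ Q b = -z.2
        have := hc b
        linear_combination -this - h2
    · intro z _ z' _ h
      have h1 := congrArg Prod.fst h
      have h2 := congrArg Prod.snd h
      exact Prod.ext h1 (neg_injective h2)
    · intro z hz
      refine ⟨(z.1, -z.2), ?_, by simp⟩
      rw [Finset.mem_filter] at hz ⊢
      refine ⟨Finset.mem_univ _, ?_⟩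
      have h := hz.2
      rw [hd] at h ⊢
      have h1 : -z.2 + cQ Q a = z.1 := congrArg Prod.fst h
      have h2 : -z.1 + cQ Q b = z.2 := congrArg Prod.snd h
      refine Prod.ext h1 ?_
      show z.1 + cQ Q b = -z.2
      have := hc b
      linear_combination -this - h2
  have c6 : ∀ a, M a a true false = N := by
    intro a
    rw [hM]
    have h0 : Fintype.card (ZMod N) = N := ZMod.card N
    rw [← Finset.card_univ] at h0
    refine Eq.trans ?_ h0
    symm
    refine Finset.card_bij (fun y _ => (y + cQ Q a, y)) ?_ ?_ ?_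
    · intro y _
      rw [Finset.mem_filter]
      refine ⟨Finset.mem_univ _, ?_⟩
      rw [hd]
      refine Prod.ext ?_ ?_
      · show y + cQ Q a = y + cQ Q a
        rfl
      · show y + cQ Q a + cQ Q a = y
        cases a
        · simp [cQ]
        · show y + Q + Q = y
          rw [add_assoc, hQ, add_zero]
    · intro y _ y' _ h
      exact congrArg Prod.snd h
    · intro z hz
      rw [Finset.mem_filter] at hz
      have h := hz.2
      rw [hd] at h
      have h1 : z.2 + cQ Q a = z.1 := congrArg Prod.fst h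
      exact ⟨z.2, Finset.mem_univ _, Prod.ext h1 rfl⟩
  have c7 : ∀ a, M a (!a) true false = 0 := by
    intro a
    rw [hM]
    refine Finset.card_eq_zero.2 (Finset.filter_eq_empty_iff.2 fun z _ h => ?_)
    rw [hd] at h
    have h1 : z.2 + cQ Q a = z.1 := congrArg Prod.fst h
    have h2 : z.1 + cQ Q (!a) = z.2 := congrArg Prod.snd h
    apply hQ0
    cases a
    · have h1' : z.2 + 0 = z.1 := h1
      have h2' : z.1 + Q = z.2 := h2
      linear_combination h1' + h2'
    · have h1' : z.2 + Q = z.1 := h1
      have h2' : z.1 + 0 = z.2 := h2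
      linear_combination h1' + h2'
  have e : ∑ g : H16, ((wgS s1 s2 g : ℤ) : ℂ) *
      (Finset.univ.filter fun i : ZMod N × ZMod N => g • i = i).card
      = ∑ a : Bool, ∑ b : Bool, ∑ s : Bool, ∑ n : Bool,
        ((wgS s1 s2 ⟨a, b, s, n⟩ : ℤ) : ℂ) * M a b s n := by
    rw [← Fintype.sum_prod_type', ← Fintype.sum_prod_type', ← Fintype.sum_prod_type']
    refine (Fintype.sum_bijective (fun t : ((Bool × Bool) × Bool) × Bool =>
      (⟨t.1.1.1, t.1.1.2, t.1.2, t.2⟩ : H16)) ?_ _ _ fun t => rfl).symm
    constructor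
    · rintro ⟨⟨⟨a, b⟩, s⟩, n⟩ ⟨⟨⟨a', b'⟩, s'⟩, n'⟩ h
      simp only [H16.mk.injEq] at h
      obtain ⟨rfl, rfl, rfl, rfl⟩ := h
      rfl
    · rintro ⟨a, b, s, n⟩
      exact ⟨⟨⟨⟨a, b⟩, s⟩, n⟩, rfl⟩
  rw [e]
  have c6t := c6 true
  have c6f := c6 false
  have c7t : M true false true false = 0 := c7 true
  have c7f : M false true true false = 0 := c7 false
  simp only [Fintype.sum_bool]
  simp only [wgS, MonoidHom.coe_mk, OneHom.coe_mk, ub]
  simp only [c1, c2, c3, c4, c5, c6t, c6f, c7t, c7f]
  simp
  ring

theorem hDimES : DimES := by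
  intro σ τ k hσ hτ hk
  obtain ⟨u, hu⟩ : ∃ u : ℤˣ, (u : ℤ) = σ := by
    rcases hσ with rfl | rfl
    · exact ⟨1, rfl⟩
    · exact ⟨-1, rfl⟩
  obtain ⟨v, hv⟩ : ∃ v : ℤˣ, (v : ℤ) = τ := by
    rcases hτ with rfl | rfl
    · exact ⟨1, rfl⟩
    · exact ⟨-1, rfl⟩
  have hσC : (σ : ℂ) = ((u : ℤ) : ℂ) := by rw [hu]
  have hτC : (τ : ℂ) = ((v : ℤ) : ℂ) := by rw [hv]
  have hvv : ((v : ℤ) : ℂ) * ((v : ℤ) : ℂ) = 1 := by
    rw [← Int.cast_mul, ← Units.val_mul, Int.units_mul_self]
    simp
  set N := 2 ^ (k - 1) with hN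
  have : NeZero N := ⟨by positivity⟩
  set Q : ZMod N := 2 ^ (k - 2) with hQd
  set R : ZMod N := 2 ^ (k - 3) with hRd
  have hQ : Q + Q = 0 := by
    have h : Q + Q = ((N : ℕ) : ZMod N) := by
      rw [hQd, hN]
      push_cast
      rw [← two_mul, ← pow_succ']
      congr 1
      omega
    rw [h, ZMod.natCast_self]
  have hR : R + R = Q := by
    rw [hQd, hRd, ← two_mul, ← pow_succ']
    congr 1
    omega
  have hQ0 : Q ≠ 0 := by
    intro h
    have h1 : ((2 ^ (k - 2) : ℕ) : ZMod N) = 0 := by
      push_cast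
      exact h
    rw [ZMod.natCast_eq_zero_iff] at h1
    have h2 := Nat.le_of_dvd (by positivity) h1
    rw [hN] at h2
    have h3 := (Nat.pow_le_pow_iff_right (by norm_num : 1 < 2)).1 h2
    omega
  let _ := actH (N := N) hQ
  have hd : ∀ (p : H16) (z : ZMod N × ZMod N), p • z =
    (sg p.n (cond p.s z.2 z.1) + cQ Q p.a, sg p.n (cond p.s z.1 z.2) + cQ Q p.b) := fun p z => rfl
  have key := Pool.Agent.Helper78.CV.hTrc (ZMod N × ZMod N) inferInstance inferInstance H16
    inferInstance inferInstance
    (actH (N := N) hQ) (wgS (u * v) v) ((antiES k σ τ).map (unc (N := N)).toLinearMap) (by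
      intro F
      rw [Submodule.mem_map]
      constructor
      · rintro ⟨G, hG, rfl⟩ g ⟨x, y⟩
        obtain ⟨a, b, s, n⟩ := g
        have g1 : ∀ (c : Bool) (x y : ZMod N), G (x + cQ Q c) y = ((ub c : ℤ) : ℂ) * G x y := by
          intro c x y
          cases c
          · simp [cQ, ub]
          · simp only [cQ, ub, if_true]
            rw [(hG x y).1]
            push_cast
            ring
        have g2 : ∀ (c : Bool) (x y : ZMod N), G x (y + cQ Q c) = ((ub c : ℤ) : ℂ) * G x y := by
          intro c x y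
          cases c
          · simp [cQ, ub]
          · simp only [cQ, ub, if_true]
            rw [(hG x y).2.1]
            push_cast
            ring
        have g3 : ∀ (c : Bool) (x y : ZMod N), G (sg c x) (sg c y) =
            (((if c then v else 1 : ℤˣ) : ℤ) : ℂ) * G x y := by
          intro c x y
          cases c
          · simp [sg]
          · simp only [sg, if_true]
            rw [(hG x y).2.2.2, hτC]
        have g4 : ∀ (c : Bool) (x y : ZMod N), G (cond c y x) (cond c x y) =
            (((if c then u * v else 1 : ℤˣ) : ℤ) : ℂ) * G x y := by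
          intro c x y
          cases c
          · simp
          · simp only [cond_true, if_true]
            have h1 := (hG (-x) (-y)).2.2.1
            rw [neg_neg, neg_neg] at h1
            rw [h1, (hG x y).2.2.2, hσC, hτC]
            push_cast
            ring
        show G (sg n (cond s y x) + cQ Q a) (sg n (cond s x y) + cQ Q b)
          = (((ub a * ub b * (if s then u * v else 1) * (if n then v else 1) : ℤˣ) : ℤ) : ℂ) *
            G x y
        rw [g1, g2, g3, g4]
        push_cast
        ring
      · intro h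
        refine ⟨fun x y => F (x, y), ?_, rfl⟩
        intro x y
        have h1 := h ⟨true, false, false, false⟩ (x, y)
        have h2 := h ⟨false, true, false, false⟩ (x, y)
        have h3 := h ⟨false, false, true, true⟩ (x, y)
        have h4 := h ⟨false, false, false, true⟩ (x, y)
        rw [hd] at h1 h2 h3 h4
        simp only [wgS, MonoidHom.coe_mk, OneHom.coe_mk, ub, sg, cQ] at h1 h2 h3 h4
        simp at h1 h2 h3 h4
        refine ⟨h1, h2, ?_, ?_⟩
        · rw [hσC]
          refine h3.trans ?_
          linear_combination ((u : ℤ) : ℂ) * F (x, y) * hvv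
        · rw [hτC]
          exact h4)
  rw [countS hQ hQ0 hR (u * v) v, Pool.Agent.Helper61.CV.H16.card] at key
  have hfr : Module.finrank ℂ ((antiES k σ τ).map (unc (N := N)).toLinearMap)
      = Module.finrank ℂ (antiES k σ τ) := by
    exact LinearEquiv.finrank_map_eq (unc (N := N)) (antiES k σ τ)
  rw [hfr, Fintype.card_prod, ZMod.card] at key
  have key1 : (Module.finrank ℂ (antiES k σ τ) : ℂ) * 16 =
      (N : ℂ) * N + 2 * (N : ℂ) * ((σ : ℂ) * (1 + τ)) := by
    rw [hσC, hτC]
    push_cast at key
    linear_combination key + 2 * (N : ℂ) * ((u : ℤ) : ℂ) * hvv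
  have key2 : (Module.finrank ℂ (antiES k σ τ) : ℤ) * 16 =
      (N : ℤ) * N + 2 * (N : ℤ) * (σ * (1 + τ)) := by exact_mod_cast key1
  have e1 : (N : ℤ) = 2 * 2 ^ (k - 2) := by
    rw [hN]
    push_cast
    rw [← pow_succ']
    congr 1
    omega
  have e2 : (4 : ℤ) ^ (k - 2) = 2 ^ (k - 2) * 2 ^ (k - 2) := by
    rw [← mul_pow]
    norm_num
  rw [e1] at key2
  rw [e2]
  linarith

end Pool.Agent.Helper66.TT
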